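import Mathlib

namespace Pool.Agent.Results.MP_fbfbfd_pr.MinkowskiIsLambda
open MeasureTheory ProbabilityTheory Filter Topology Finset
open scoped ENNReal Nat

/-- `ℤ^d` -/
abbrev G (d : ℕ) : Type := Fin d → ℤ

/-- `V_k = [-2^k, 2^k)^d` -/
def V (d k : ℕ) : Set (G d) := {x | ∀ i, -2 ^ k ≤ x i ∧ x i < 2 ^ k}

/-- the macroscopic lower Minkowski dimension -/
noncomputable def dimM {d : ℕ} (A : Set (G d)) : EReal :=
  liminf (fun n : ℕ => ((Real.logb 2 (A ∩ V d n).ncard / n : ℝ) : EReal)) atTop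

/-- the law of the sequence of the steps, independent with law `μ` -/
noncomputable def law {d : ℕ} (μ : Measure (G d)) : Measure (ℕ → G d) :=
  Measure.infinitePi fun _ => μ

/-- the walk `X_n = ω_0 + ⋯ + ω_{n-1}` -/
def X {d : ℕ} (n : ℕ) (ω : ℕ → G d) : G d := ∑ i ∈ range n, ω i

/-- the range of the walk -/
def rng {d : ℕ} (ω : ℕ → G d) : Set (G d) := Set.range fun n => X n ω

/-- the potential measure `U(A) = ∑_n P(X_n ∈ A)` -/
noncomputable def U {d : ℕ} (μ : Measure (G d)) (A : Set (G d)) : ℝ≥0∞ :=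
  ∑' n, law μ {ω | X n ω ∈ A}

/-- the walk is transient: the Green function is finite -/
def Transient {d : ℕ} (μ : Measure (G d)) : Prop := ∀ x, U μ {x} < ∞

/-- `λ_X` -/
noncomputable def lam {d : ℕ} (μ : Measure (G d)) : EReal :=
  liminf (fun n : ℕ => ((Real.logb 2 (U μ (V d n)).toReal / n : ℝ) : EReal)) atTop

section Gen

variable {d : ℕ} (μ : Measure (G d)) [IsProbabilityMeasure μ]

instance : IsProbabilityMeasure (law μ) := by unfold law; infer_instance

/-- the shift -/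
def sh (m : ℕ) (ω : ℕ → G d) : ℕ → G d := fun i => ω (m + i)

lemma X_sh (m j : ℕ) (ω : ℕ → G d) : X j (sh m ω) = X (m + j) ω - X m ω := by
  simp only [X, sh, Finset.sum_range_add, add_sub_cancel_left]

lemma meas_X (n : ℕ) : Measurable (X n : (ℕ → G d) → G d) := by
  unfold X; fun_prop

lemma meas_sh (m : ℕ) : Measurable (sh m : (ℕ → G d) → (ℕ → G d)) := by
  unfold sh; fun_prop

lemma map_sh (m : ℕ) : (law μ).map (sh m) = law μ := by
  unfold law sh
  exact Measure.map_infinitePi_infinitePi_of_inj (P := fun _ : ℕ => μ) (f := fun i => m + i)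
    (add_right_injective m)

lemma markov (m : ℕ) (A : Set (G d)) {E : Set (ℕ → G d)} (hE : MeasurableSet E) :
    law μ {ω | X m ω ∈ A ∧ sh m ω ∈ E} = law μ {ω | X m ω ∈ A} * law μ E := by
  have hi : iIndep (fun i : ℕ => MeasurableSpace.comap (fun ω : ℕ → G d => ω i) inferInstance)
      (law μ) := by
    have := iIndepFun_infinitePi (P := fun _ : ℕ => μ) (X := fun _ (x : G d) => x)
      (fun _ => measurable_id)
    exact this
  have h := indep_iSup_of_disjoint (fun i => (measurable_pi_apply i).comap_le) hi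
    (S := Set.Iio m) (T := Set.Ici m) (by
      rw [Set.disjoint_left]; intro i h1 h2
      exact absurd (Set.mem_Ici.1 h2) (not_le.2 (Set.mem_Iio.1 h1)))
  rw [Indep_iff] at h
  have hX : MeasurableSet[⨆ i ∈ Set.Iio m, MeasurableSpace.comap (fun ω : ℕ → G d => ω i)
      inferInstance] {ω | X m ω ∈ A} := by
    have : Measurable[⨆ i ∈ Set.Iio m, MeasurableSpace.comap (fun ω : ℕ → G d => ω i)
      inferInstance] (X m : (ℕ → G d) → G d) := by
      unfold X
      refine Finset.measurable_fun_sum _ fun i hi => ?_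
      refine Measurable.mono (comap_measurable _) ?_ le_rfl
      exact le_iSup₂_of_le i (Finset.mem_range.1 hi) le_rfl
    exact this MeasurableSet.of_discrete
  have hS : MeasurableSet[⨆ i ∈ Set.Ici m, MeasurableSpace.comap (fun ω : ℕ → G d => ω i)
      inferInstance] {ω | sh m ω ∈ E} := by
    have : Measurable[⨆ i ∈ Set.Ici m, MeasurableSpace.comap (fun ω : ℕ → G d => ω i)
      inferInstance] (sh m : (ℕ → G d) → (ℕ → G d)) := by
      unfold sh
      refine @measurable_pi_lambda _ _ _ (_) _ _ fun i => ?_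
      refine Measurable.mono (comap_measurable _) ?_ le_rfl
      exact le_iSup₂_of_le (m + i) (Nat.le_add_right m i) le_rfl
    exact this hE
  have := h _ _ hX hS
  rw [show {ω | X m ω ∈ A ∧ sh m ω ∈ E} = {ω | X m ω ∈ A} ∩ {ω | sh m ω ∈ E} from rfl, this]
  congr 1
  conv_rhs => rw [← map_sh μ m, Measure.map_apply (meas_sh m) hE]
  rfl

/-! ### Counting the points of the range -/

/-- `V_n` as a finite set -/
noncomputable def Vf (d n : ℕ) : Finset (G d) := Fintype.piFinset fun _ => Finset.Ico (-2 ^ n : ℤ) (2 ^ n)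

omit μ [IsProbabilityMeasure μ] in
lemma mem_Vf (n : ℕ) (x : G d) : x ∈ Vf d n ↔ x ∈ V d n := by
  simp [Vf, V]

open scoped Classical in
/-- the number of the points of the range in `V_n` -/
noncomputable def D (d n : ℕ) (ω : ℕ → G d) : ℕ := #{x ∈ Vf d n | ∃ k, X k ω = x}

omit μ [IsProbabilityMeasure μ] in
lemma D_eq (n : ℕ) (ω : ℕ → G d) : (rng ω ∩ V d n).ncard = D d n ω := by
  classical
  have : rng ω ∩ V d n = ((Vf d n).filter fun x => ∃ k, X k ω = x : Finset (G d)) := by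
    ext x
    simp only [rng, Set.mem_inter_iff, Set.mem_range, coe_filter, mem_Vf, Set.mem_ofPred_eq]
    tauto
  rw [this, Set.ncard_coe_finset]
  rfl

omit μ [IsProbabilityMeasure μ] in
lemma meas_hit (x : G d) : MeasurableSet {ω : ℕ → G d | ∃ k, X k ω = x} := by
  have : {ω : ℕ → G d | ∃ k, X k ω = x} = ⋃ k, {ω | X k ω = x} := by ext; simp
  rw [this]
  exact MeasurableSet.iUnion fun k => meas_X k (measurableSet_singleton x)

omit μ [IsProbabilityMeasure μ] in
lemma meas_D (n : ℕ) : Measurable (D d n : (ℕ → G d) → ℕ) := by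
  classical
  have : (D d n : (ℕ → G d) → ℕ) = fun ω => ∑ x ∈ Vf d n, if ∃ k, X k ω = x then 1 else 0 := by
    funext ω
    rw [D, Finset.card_filter]
  rw [this]
  refine Finset.measurable_fun_sum _ fun x _ => ?_
  exact Measurable.ite (meas_hit x) measurable_const measurable_const

omit μ [IsProbabilityMeasure μ] in
lemma D_sh (m n : ℕ) (ω : ℕ → G d) (h0 : X m ω = 0) : D d n (sh m ω) ≤ D d n ω := by
  classical
  apply Finset.card_le_card
  intro x hx
  rw [mem_filter] at hx ⊢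
  obtain ⟨h1, k, hk⟩ := hx
  refine ⟨h1, m + k, ?_⟩
  rw [X_sh, h0, sub_zero] at hk
  exact hk

/-- no return to the origin -/
def NR (d : ℕ) : Set (ℕ → G d) := {ω | ∀ j, 1 ≤ j → X j ω ≠ 0}

omit μ [IsProbabilityMeasure μ] in
lemma meas_NR : MeasurableSet (NR d) := by
  have : NR d = ⋂ j : ℕ, ⋂ (_ : 1 ≤ j), {ω | X j ω = 0}ᶜ := by
    ext; simp [NR]
  rw [this]
  exact MeasurableSet.iInter fun j => MeasurableSet.iInter fun _ =>
    (meas_X j (measurableSet_singleton 0)).compl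

/-- few points in `V_n` -/
def Few (d n t : ℕ) : Set (ℕ → G d) := {ω | D d n ω ≤ t}

omit μ [IsProbabilityMeasure μ] in
lemma meas_Few (n t : ℕ) : MeasurableSet (Few d n t) :=
  meas_D n (MeasurableSet.of_discrete (s := Set.Iic t))

omit μ [IsProbabilityMeasure μ] in
/-- The pointwise bound: few times `m` with `X_m ∈ V_n` are last visits after which few points of
`X_m + V_{n+1}` are visited. -/
lemma count (n t : ℕ) (ω : ℕ → G d) (F : Finset ℕ)
    (hF : ∀ m ∈ F, X m ω ∈ V d n ∧ sh m ω ∈ Few d (n + 1) t ∩ NR d) : #F ≤ t := by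
  classical
  rcases F.eq_empty_or_nonempty with rfl | hne
  · simp
  set m0 := F.min' hne with hm0
  have h0 := hF m0 (F.min'_mem hne)
  refine le_trans ?_ h0.2.1
  refine Finset.card_le_card_of_injOn (fun m => X m ω - X m0 ω) ?_ ?_
  · intro m hm
    have hle : m0 ≤ m := F.min'_le m hm
    have h1 := (hF m hm).1
    simp only [coe_filter, Set.mem_ofPred_eq, mem_Vf]
    refine ⟨?_, m - m0, ?_⟩
    · intro i
      have a := h1 i
      have b := h0.1 i
      simp only [Pi.sub_apply, pow_succ]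
      constructor <;> [linarith [a.1, b.2]; linarith [a.2, b.1]]
    · rw [X_sh]; congr 2; omega
  · intro m hm m' hm' he
    simp only [sub_left_inj] at he
    by_contra hne'
    wlog hlt : m < m' generalizing m m'
    · exact this hm' hm he.symm (Ne.symm hne') (lt_of_le_of_ne (not_lt.1 hlt) (Ne.symm hne'))
    have := (hF m hm).2.2 (m' - m) (by omega)
    apply this
    rw [X_sh, show m + (m' - m) = m' by omega, he, sub_self]

lemma claim1 (n t : ℕ) : U μ (V d n) * law μ (Few d (n + 1) t ∩ NR d) ≤ t := by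
  classical
  have hE : MeasurableSet (Few d (n + 1) t ∩ NR d) := (meas_Few _ _).inter meas_NR
  have hm : ∀ m, MeasurableSet {ω | X m ω ∈ V d n ∧ sh m ω ∈ Few d (n + 1) t ∩ NR d} := fun m =>
    MeasurableSet.inter (s₁ := {ω | X m ω ∈ V d n}) (s₂ := {ω | sh m ω ∈ Few d (n + 1) t ∩ NR d})
      (meas_X m MeasurableSet.of_discrete) (meas_sh m hE)
  calc U μ (V d n) * law μ (Few d (n + 1) t ∩ NR d)
      = ∑' m, law μ {ω | X m ω ∈ V d n ∧ sh m ω ∈ Few d (n + 1) t ∩ NR d} := by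
        rw [U, ← ENNReal.tsum_mul_right]
        exact tsum_congr fun m => (markov μ m _ hE).symm
    _ = ∑' m, ∫⁻ ω, Set.indicator {ω | X m ω ∈ V d n ∧ sh m ω ∈ Few d (n + 1) t ∩ NR d} 1 ω
          ∂law μ := tsum_congr fun m => (lintegral_indicator_one (hm m)).symm
    _ = ∫⁻ ω, ∑' m, Set.indicator {ω | X m ω ∈ V d n ∧ sh m ω ∈ Few d (n + 1) t ∩ NR d} 1 ω
          ∂law μ := (lintegral_tsum fun m =>
            (measurable_one.indicator (hm m)).aemeasurable).symm
    _ ≤ ∫⁻ _, (t : ℝ≥0∞) ∂law μ := by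
        refine lintegral_mono fun ω => ?_
        rw [ENNReal.tsum_eq_iSup_sum]
        refine iSup_le fun F => ?_
        have h1 : ∑ m ∈ F, Set.indicator
            {ω | X m ω ∈ V d n ∧ sh m ω ∈ Few d (n + 1) t ∩ NR d} (1 : (ℕ → G d) → ℝ≥0∞) ω
            = (#{m ∈ F | X m ω ∈ V d n ∧ sh m ω ∈ Few d (n + 1) t ∩ NR d} : ℝ≥0∞) := by
          rw [Finset.card_filter, Nat.cast_sum]
          refine Finset.sum_congr rfl fun m _ => ?_
          by_cases h : X m ω ∈ V d n ∧ sh m ω ∈ Few d (n + 1) t ∩ NR d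
          · rw [Set.indicator_of_mem (by exact h), if_pos h]; simp
          · rw [Set.indicator_of_notMem (by exact h), if_neg h]; simp
        rw [h1]
        exact_mod_cast count n t ω _ fun m hm => (mem_filter.1 hm).2
    _ = t := by simp

lemma claim2 (ht : U μ {0} ≠ ∞) (n t : ℕ) :
    law μ (Few d n t) ≤ U μ {0} * law μ (Few d n t ∩ NR d) := by
  have hE : MeasurableSet (Few d n t ∩ NR d) := (meas_Few _ _).inter meas_NR
  have h1 : ∀ᵐ ω ∂law μ, ∀ᶠ m in atTop, ω ∉ {ω : ℕ → G d | X m ω ∈ ({0} : Set (G d))} :=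
    ae_eventually_notMem ht
  have h2 : law μ (Few d n t) ≤
      law μ (⋃ m, {ω | X m ω ∈ ({0} : Set (G d)) ∧ sh m ω ∈ Few d n t ∩ NR d}) := by
    refine measure_mono_ae ?_
    filter_upwards [h1] with ω hω (hf : D d n ω ≤ t)
    obtain ⟨M, hM⟩ := eventually_atTop.1 hω
    have hfin : {m | X m ω = 0}.Finite := (Set.finite_lt_nat M).subset fun m hm => by
      by_contra hc
      exact hM m (not_lt.1 hc) hm
    have hne : hfin.toFinset.Nonempty := ⟨0, by simp [X]⟩
    set m := hfin.toFinset.max' hne with hmdef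
    have hmem : X m ω = 0 := by
      have := hfin.toFinset.max'_mem hne
      rw [Set.Finite.mem_toFinset] at this
      exact this
    refine Set.mem_iUnion.2 ⟨m, hmem, (D_sh m n ω hmem).trans hf, ?_⟩
    intro j hj h0
    rw [X_sh, hmem, sub_zero] at h0
    have := hfin.toFinset.le_max' (m + j) (by rw [Set.Finite.mem_toFinset]; exact h0)
    omega
  refine h2.trans ((measure_iUnion_le _).trans ?_)
  rw [U, ← ENNReal.tsum_mul_right]
  exact ENNReal.tsum_le_tsum fun m => (markov μ m _ hE).le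

/-- **The basic inequality**: `U(V_n) P(#(R ∩ V_{n+1}) ≤ t) ≤ g(0,0) t`. -/
lemma basic (ht : U μ {0} ≠ ∞) (n t : ℕ) :
    U μ (V d n) * law μ (Few d (n + 1) t) ≤ U μ {0} * t := by
  calc U μ (V d n) * law μ (Few d (n + 1) t)
      ≤ U μ (V d n) * (U μ {0} * law μ (Few d (n + 1) t ∩ NR d)) := by
        gcongr; exact claim2 μ ht _ _
    _ = U μ {0} * (U μ (V d n) * law μ (Few d (n + 1) t ∩ NR d)) := by ring
    _ ≤ U μ {0} * t := by gcongr; exact claim1 μ n t

omit [IsProbabilityMeasure μ] in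
lemma U_V (n : ℕ) : U μ (V d n) = ∑ x ∈ Vf d n, U μ {x} := by
  unfold U
  rw [← Summable.tsum_finsetSum fun _ _ => ENNReal.summable]
  refine tsum_congr fun m => ?_
  rw [← measure_biUnion_finset]
  · congr 1
    ext ω
    simp only [Set.mem_ofPred_eq, Set.mem_iUnion, Set.mem_singleton_iff, exists_prop]
    constructor
    · intro h; exact ⟨_, (mem_Vf n _).2 h, rfl⟩
    · rintro ⟨x, h1, h2⟩; rw [h2]; exact (mem_Vf n _).1 h1
  · intro x _ y _ hxy
    rw [Function.onFun, Set.disjoint_left]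
    intro ω h1 h2
    exact hxy (h1.symm.trans h2)
  · intro x _
    exact meas_X m (measurableSet_singleton x)

omit [IsProbabilityMeasure μ] in
lemma U_lt (ht : Transient μ) (n : ℕ) : U μ (V d n) < ∞ := by
  rw [U_V]
  exact ENNReal.sum_lt_top.2 fun x _ => ht x

lemma one_le_U (n : ℕ) : 1 ≤ U μ (V d n) := by
  refine le_trans ?_ (ENNReal.le_tsum 0)
  have : {ω : ℕ → G d | X 0 ω ∈ V d n} = Set.univ := by
    ext ω; simp [X, V]
  rw [this]; simp

omit [IsProbabilityMeasure μ] in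
/-- `E #(R ∩ V_n) ≤ U(V_n)` -/
lemma lintegral_D (n : ℕ) : ∫⁻ ω, D d n ω ∂law μ ≤ U μ (V d n) := by
  classical
  have h : ∀ ω : ℕ → G d, (D d n ω : ℝ≥0∞)
      = ∑ x ∈ Vf d n, Set.indicator {ω | ∃ k, X k ω = x} 1 ω := by
    intro ω
    rw [D, Finset.card_filter, Nat.cast_sum]
    refine Finset.sum_congr rfl fun x _ => ?_
    by_cases h : ∃ k, X k ω = x
    · rw [Set.indicator_of_mem (by exact h), if_pos h]; simp
    · rw [Set.indicator_of_notMem (by exact h), if_neg h]; simp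
  simp_rw [h]
  rw [lintegral_finsetSum _ fun x _ => measurable_one.indicator (meas_hit x), U_V]
  refine Finset.sum_le_sum fun x _ => ?_
  rw [lintegral_indicator_one (meas_hit x), U]
  have : {ω : ℕ → G d | ∃ k, X k ω = x} = ⋃ k, {ω | X k ω ∈ ({x} : Set (G d))} := by ext; simp
  rw [this]
  exact measure_iUnion_le _

/-- lower bound for the number of the points of the range -/
lemma ae_lower (ht : Transient μ) (ε : ℝ) (hε : 0 < ε) :
    ∀ᵐ ω ∂law μ, ∀ᶠ n : ℕ in atTop,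
      (2:ℝ) ^ (-(ε * n)) * (U μ (V d n)).toReal ≤ D d (n + 1) ω := by
  have h0 : U μ {0} ≠ ∞ := (ht 0).ne
  set g : ℝ := (U μ {0}).toReal with hg
  set u : ℕ → ℝ := fun n => (U μ (V d n)).toReal with hu
  have hu1 : ∀ n, 1 ≤ u n := fun n => by
    have := ENNReal.toReal_mono (U_lt μ ht n).ne (one_le_U μ n)
    simpa using this
  set t : ℕ → ℕ := fun n => ⌊(2:ℝ) ^ (-(ε * n)) * u n⌋₊ with htd
  have hb : ∀ n, law μ (Few d (n + 1) (t n)) ≤ ENNReal.ofReal (g * ((2:ℝ) ^ (-ε)) ^ n) := by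
    intro n
    have h1 := basic μ h0 n (t n)
    have h2 : (law μ (Few d (n + 1) (t n))).toReal ≤ g * ((2:ℝ) ^ (-ε)) ^ n := by
      have h3 := ENNReal.toReal_mono (by finiteness) h1
      rw [ENNReal.toReal_mul, ENNReal.toReal_mul, ENNReal.toReal_natCast] at h3
      have h4 : (t n : ℝ) ≤ (2:ℝ) ^ (-(ε * n)) * u n := Nat.floor_le (by
        have := hu1 n; positivity)
      have h5 : (2:ℝ) ^ (-(ε * n)) = ((2:ℝ) ^ (-ε)) ^ n := by
        rw [← Real.rpow_natCast, ← Real.rpow_mul two_pos.le]; congr 1; ring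
      rw [h5] at h4
      have hg0 : 0 ≤ g := ENNReal.toReal_nonneg
      have h6 : u n * (law μ (Few d (n + 1) (t n))).toReal ≤ u n * (g * ((2:ℝ) ^ (-ε)) ^ n) := by
        calc u n * (law μ (Few d (n + 1) (t n))).toReal ≤ g * (t n) := h3
          _ ≤ g * (((2:ℝ) ^ (-ε)) ^ n * u n) := mul_le_mul_of_nonneg_left h4 hg0
          _ = u n * (g * ((2:ℝ) ^ (-ε)) ^ n) := by ring
      exact le_of_mul_le_mul_left h6 (by have := hu1 n; linarith)
    rw [← ENNReal.ofReal_toReal (measure_ne_top (law μ) (Few d (n + 1) (t n)))]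
    exact ENNReal.ofReal_le_ofReal h2
  have hq : (2:ℝ) ^ (-ε) < 1 := Real.rpow_lt_one_of_one_lt_of_neg one_lt_two (by linarith)
  have hsum : ∑' n, law μ (Few d (n + 1) (t n)) ≠ ∞ := by
    refine ne_top_of_le_ne_top ?_ (ENNReal.tsum_le_tsum hb)
    have hs : Summable fun n : ℕ => g * ((2:ℝ) ^ (-ε)) ^ n :=
      (summable_geometric_of_lt_one (by positivity) hq).mul_left g
    rw [← ENNReal.ofReal_tsum_of_nonneg (fun n => by
      have : 0 ≤ g := ENNReal.toReal_nonneg
      positivity) hs]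
    exact ENNReal.ofReal_ne_top
  filter_upwards [ae_eventually_notMem hsum] with ω hω
  filter_upwards [hω] with n hn
  have h1 : t n < D d (n + 1) ω := not_le.1 hn
  have h2 : (2:ℝ) ^ (-(ε * n)) * u n < t n + 1 := Nat.lt_floor_add_one _
  have h3 : (t n : ℝ) + 1 ≤ D d (n + 1) ω := by exact_mod_cast h1
  linarith

omit [IsProbabilityMeasure μ] in
/-- upper bound along a subsequence -/
lemma ae_upper (ht : Transient μ) (a b : ℝ) (hab : a < b)
    (hf : ∃ᶠ n : ℕ in atTop, (U μ (V d n)).toReal ≤ (2:ℝ) ^ (a * n)) :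
    ∀ᵐ ω ∂law μ, ∃ᶠ n : ℕ in atTop, (D d n ω : ℝ) ≤ (2:ℝ) ^ (b * n) := by
  classical
  set Bad : ℕ → Set (ℕ → G d) := fun n =>
    if (U μ (V d n)).toReal ≤ (2:ℝ) ^ (a * n) then {ω | (2:ℝ) ^ (b * n) < D d n ω} else ∅ with hBad
  have hb : ∀ n, law μ (Bad n) ≤ ENNReal.ofReal (((2:ℝ) ^ (a - b)) ^ n) := by
    intro n
    by_cases hn : (U μ (V d n)).toReal ≤ (2:ℝ) ^ (a * n)
    · have e : Bad n = {ω | (2:ℝ) ^ (b * n) < D d n ω} := by rw [hBad]; simp only [if_pos hn]
      rw [e]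
      have h1 : law μ {ω | (2:ℝ) ^ (b * n) < D d n ω}
          ≤ law μ {ω | ENNReal.ofReal ((2:ℝ) ^ (b * n)) ≤ (D d n ω : ℝ≥0∞)} := by
        refine measure_mono ?_
        intro ω h
        have h' : (2:ℝ) ^ (b * n) < D d n ω := h
        show ENNReal.ofReal _ ≤ (D d n ω : ℝ≥0∞)
        rw [← ENNReal.ofReal_natCast]
        exact ENNReal.ofReal_le_ofReal h'.le
      have hm : AEMeasurable (fun ω => (D d n ω : ℝ≥0∞)) (law μ) :=
        ((measurable_from_top (f := fun k : ℕ => (k : ℝ≥0∞))).comp (meas_D n)).aemeasurable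
      have h2 := mul_meas_ge_le_lintegral₀ hm (ENNReal.ofReal ((2:ℝ) ^ (b * n)))
      have h3 := h2.trans (lintegral_D μ n)
      have h4 : U μ (V d n) ≤ ENNReal.ofReal ((2:ℝ) ^ (a * n)) := by
        rw [← ENNReal.ofReal_toReal (U_lt μ ht n).ne]
        exact ENNReal.ofReal_le_ofReal hn
      have h5 := h3.trans h4
      have e1 : ENNReal.ofReal ((2:ℝ) ^ (a * n))
          = ENNReal.ofReal ((2:ℝ) ^ (b * n)) * ENNReal.ofReal (((2:ℝ) ^ (a - b)) ^ n) := by
        rw [← ENNReal.ofReal_mul (by positivity), ← Real.rpow_natCast, ← Real.rpow_mul two_pos.le,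
          ← Real.rpow_add two_pos]
        congr 2; ring
      rw [e1] at h5
      refine h1.trans ?_
      rwa [ENNReal.mul_le_mul_iff_right (by positivity) ENNReal.ofReal_ne_top] at h5
    · have e : Bad n = ∅ := by rw [hBad]; simp only [if_neg hn]
      rw [e]; simp
  have hq : (2:ℝ) ^ (a - b) < 1 := Real.rpow_lt_one_of_one_lt_of_neg one_lt_two (by linarith)
  have hsum : ∑' n, law μ (Bad n) ≠ ∞ := by
    refine ne_top_of_le_ne_top ?_ (ENNReal.tsum_le_tsum hb)
    have hs : Summable fun n : ℕ => ((2:ℝ) ^ (a - b)) ^ n :=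
      summable_geometric_of_lt_one (by positivity) hq
    rw [← ENNReal.ofReal_tsum_of_nonneg (fun n => by positivity) hs]
    exact ENNReal.ofReal_ne_top
  filter_upwards [ae_eventually_notMem hsum] with ω hω
  refine (hf.and_eventually hω).mono fun n ⟨h1, h2⟩ => ?_
  rw [hBad] at h2
  simp only [if_pos h1] at h2
  exact not_lt.1 h2

omit μ [IsProbabilityMeasure μ] in
lemma one_le_D (n : ℕ) (ω : ℕ → G d) : 1 ≤ D d n ω := by
  classical
  refine Finset.card_pos.2 ⟨0, ?_⟩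
  rw [mem_filter, mem_Vf]
  exact ⟨by intro i; simp, 0, by simp [X]⟩

/-- **The lower Minkowski dimension of the range is `λ_X`**, for every transient random walk. -/
theorem minkowski (ht : Transient μ) : ∀ᵐ ω ∂law μ, dimM (rng ω) = lam μ := by
  set u : ℕ → ℝ := fun n => (U μ (V d n)).toReal with hu
  have hu1 : ∀ n, 1 ≤ u n := fun n => by
    have := ENNReal.toReal_mono (U_lt μ ht n).ne (one_le_U μ n)
    simpa using this
  have hlow : ∀ᵐ ω ∂law μ, ∀ q : ℕ, ∀ᶠ n : ℕ in atTop,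
      (2:ℝ) ^ (-((1 / ((q:ℝ) + 1)) * n)) * u n ≤ D d (n + 1) ω :=
    ae_all_iff.2 fun q => ae_lower μ ht _ (by positivity)
  have hup : ∀ᵐ ω ∂law μ, ∀ p : ℚ × ℚ, (p.1 : ℝ) < p.2 →
      (∃ᶠ n : ℕ in atTop, u n ≤ (2:ℝ) ^ ((p.1 : ℝ) * n)) →
      ∃ᶠ n : ℕ in atTop, (D d n ω : ℝ) ≤ (2:ℝ) ^ ((p.2 : ℝ) * n) := by
    refine ae_all_iff.2 fun p => ?_
    by_cases h1 : (p.1 : ℝ) < p.2
    · by_cases h2 : ∃ᶠ n : ℕ in atTop, u n ≤ (2:ℝ) ^ ((p.1 : ℝ) * n)
      · filter_upwards [ae_upper μ ht p.1 p.2 h1 h2] with ω hω _ _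
        exact hω
      · exact .of_forall fun ω _ h => absurd h h2
    · exact .of_forall fun ω h => absurd h h1
  filter_upwards [hlow, hup] with ω hl hU
  apply le_antisymm
  · -- `dimM ≤ lam`
    refine le_of_forall_gt_imp_ge_of_dense fun c hc => ?_
    obtain ⟨c1, h1, h2⟩ := EReal.lt_iff_exists_rat_btwn.1 hc
    obtain ⟨c2, h3, h4⟩ := EReal.lt_iff_exists_rat_btwn.1 h2
    have h3' : (c1 : ℝ) < c2 := by exact_mod_cast h3
    have hf : ∃ᶠ n : ℕ in atTop, u n ≤ (2:ℝ) ^ ((c1 : ℝ) * n) := by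
      have := frequently_lt_of_liminf_lt (by isBoundedDefault) h1
      refine (this.and_eventually (eventually_gt_atTop 0)).mono fun n ⟨hn, hn0⟩ => ?_
      have hn' : Real.logb 2 (u n) / n < c1 := by exact_mod_cast hn
      have hn0' : (0:ℝ) < n := by exact_mod_cast hn0
      rw [div_lt_iff₀ hn0'] at hn'
      rw [← Real.logb_le_iff_le_rpow one_lt_two (by have := hu1 n; linarith)]
      exact hn'.le
    have hf2 := hU (c1, c2) h3' hf
    refine le_trans (liminf_le_of_frequently_le' ((hf2.and_eventually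
      (eventually_gt_atTop 0)).mono fun n ⟨hn, hn0⟩ => ?_)) h4.le
    have hn0' : (0:ℝ) < n := by exact_mod_cast hn0
    rw [D_eq]
    have h5 : Real.logb 2 (D d n ω) ≤ c2 * n := by
      rw [Real.logb_le_iff_le_rpow one_lt_two (by exact_mod_cast one_le_D n ω)]
      exact hn
    have h6 : Real.logb 2 (D d n ω) / n ≤ c2 := by rw [div_le_iff₀ hn0']; exact h5
    exact_mod_cast h6
  · -- `lam ≤ dimM`
    refine le_of_forall_lt_imp_le_of_dense fun c hc => ?_
    obtain ⟨c1, h1, h2⟩ := EReal.lt_iff_exists_rat_btwn.1 hc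
    obtain ⟨c2, h3, h4⟩ := EReal.lt_iff_exists_rat_btwn.1 h2
    have h3' : (c1 : ℝ) < c2 := by exact_mod_cast h3
    refine h1.le.trans ?_
    refine le_liminf_of_le (by isBoundedDefault) ?_
    have hev : ∀ᶠ n : ℕ in atTop, (c2 : ℝ) * n ≤ Real.logb 2 (u n) := by
      have := eventually_lt_of_lt_liminf h4 (by isBoundedDefault)
      filter_upwards [this, eventually_gt_atTop 0] with n hn hn0
      have hn' : (c2 : ℝ) < Real.logb 2 (u n) / n := by exact_mod_cast hn
      have hn0' : (0:ℝ) < n := by exact_mod_cast hn0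
      rw [lt_div_iff₀ hn0'] at hn'
      exact hn'.le
    obtain ⟨q, hq⟩ := exists_nat_one_div_lt (sub_pos.2 h3')
    have hlim : ∀ᶠ n : ℕ in atTop, (c1 : ℝ) * (n + 1) ≤ (c2 - 1 / ((q:ℝ) + 1)) * n := by
      have h5 : 0 < (c2 - 1 / ((q:ℝ) + 1)) - c1 := by linarith
      obtain ⟨M, hM⟩ := exists_nat_gt ((c1 : ℝ) / ((c2 - 1 / ((q:ℝ) + 1)) - c1))
      filter_upwards [eventually_ge_atTop M] with n hn
      have hn' : (M:ℝ) ≤ n := by exact_mod_cast hn
      rw [div_lt_iff₀ h5] at hM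
      nlinarith
    have key : ∀ᶠ n : ℕ in atTop, (c1 : ℝ) ≤ Real.logb 2 (D d (n + 1) ω) / ((n + 1 : ℕ) : ℝ) := by
      filter_upwards [hev, hlim, hl q] with n hn1 hn2 hn3
      have hn0 : (0:ℝ) < ((n + 1 : ℕ) : ℝ) := by positivity
      rw [le_div_iff₀ hn0]
      have h6 : Real.logb 2 ((2:ℝ) ^ (-((1 / ((q:ℝ) + 1)) * n)) * u n)
          ≤ Real.logb 2 (D d (n + 1) ω) := by
        apply Real.logb_le_logb_of_le one_lt_two _ hn3
        have := hu1 n
        positivity
      rw [Real.logb_mul (by positivity) (by have := hu1 n; linarith [this]),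
        Real.logb_rpow two_pos (by norm_num)] at h6
      push_cast
      linarith
    obtain ⟨M, hM⟩ := eventually_atTop.1 key
    filter_upwards [eventually_ge_atTop (M + 1)] with n hn
    obtain ⟨k, rfl⟩ := Nat.exists_eq_add_of_le' (show 1 ≤ n by omega)
    have h7 := hM k (by omega)
    rw [D_eq]
    exact_mod_cast h7

end Gen

/-! ### Part 2: the macroscopic Hausdorff dimension -/

/-- the shells `S_k` -/
def S (d : ℕ) : ℕ → Set (G d)
  | 0 => V d 0
  | k + 1 => V d (k + 1) \ V d k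

/-- the dyadic cube of side `2^l` with index `j` -/
def cube {d : ℕ} (Q : ℕ × G d) : Set (G d) :=
  {x | ∀ i, Q.2 i * 2 ^ Q.1 ≤ x i ∧ x i < (Q.2 i + 1) * 2 ^ Q.1}

/-- `N_α(A, S_k)` -/
noncomputable def N {d : ℕ} (α : ℝ) (A : Set (G d)) (k : ℕ) : ℝ≥0∞ :=
  ⨅ (C : Finset (ℕ × G d)) (_ : A ∩ S d k ⊆ ⋃ Q ∈ C, cube Q),
    ∑ Q ∈ C, ENNReal.ofReal (2 ^ (α * (Q.1 - k - 1)))

/-- the macroscopic lower Hausdorff dimension -/
noncomputable def dimH {d : ℕ} (A : Set (G d)) : ℝ := sInf {α | 0 < α ∧ Tendsto (N α A) atTop (𝓝 0)}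

/-! #### The line -/

/-- `V_k` on the line -/
def V1 (k : ℕ) : Set ℤ := Set.Ico (-2 ^ k) (2 ^ k)
/-- the shells on the line -/
def S1 : ℕ → Set ℤ
  | 0 => V1 0
  | k + 1 => V1 (k + 1) \ V1 k
/-- the dyadic interval `[j 2^l, (j+1) 2^l)` -/
def cube1 (Q : ℕ × ℤ) : Set ℤ := Set.Ico (Q.2 * 2 ^ Q.1) ((Q.2 + 1) * 2 ^ Q.1)
/-- `N_α(A, S_k)` on the line -/
noncomputable def N1 (α : ℝ) (A : Set ℤ) (k : ℕ) : ℝ≥0∞ :=
  ⨅ (C : Finset (ℕ × ℤ)) (_ : A ∩ S1 k ⊆ ⋃ Q ∈ C, cube1 Q),
    ∑ Q ∈ C, ENNReal.ofReal (2 ^ (α * (Q.1 - k - 1)))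
/-- the walk on the line -/
def X1 (n : ℕ) (ω : ℕ → ℤ) : ℤ := ∑ i ∈ range n, ω i

lemma ge_self {ω : ℕ → ℤ} (h : ∀ i, 1 ≤ ω i) (n : ℕ) : n ≤ X1 n ω := by
  simpa [X1] using card_nsmul_le_sum (range n) ω 1 fun i _ => h i

lemma lower {α : ℝ} (h0 : 0 < α) (h1 : α < 1) {ω : ℕ → ℤ} (h : ∀ i, 1 ≤ ω i) {k b : ℕ}
    (hb : b + 1 ≤ k) (hb' : b ≤ (1 - α) * (k + 2)) (hω : ∀ i < 2 ^ (k + 1), ω i ≤ 2 ^ b) :
    ENNReal.ofReal (1 / 16) ≤ N1 α (Set.range fun n => X1 n ω) (k + 1) := by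
  refine le_iInf₂ fun C hC => ?_
  rw [← ENNReal.ofReal_sum_of_nonneg fun _ _ => by positivity]
  refine ENNReal.ofReal_le_ofReal ?_
  have cov : Ico (2 ^ k : ℤ) (2 ^ (k + 1) - 2 ^ b) ⊆
      C.biUnion fun Q => Ico (Q.2 * 2 ^ Q.1 - 2 ^ b) ((Q.2 + 1) * 2 ^ Q.1) := fun y hy => by
    rw [mem_Ico] at hy
    have p : (0 : ℤ) < 2 ^ k ∧ (0 : ℤ) < 2 ^ b := ⟨by positivity, by positivity⟩
    have ex : ∃ n, y ≤ X1 n ω := ⟨y.toNat, (Int.self_le_toNat y).trans (ge_self h _)⟩
    obtain ⟨n, hn⟩ := Nat.exists_eq_succ_of_ne_zero (n := Nat.find ex) fun h0 => by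
      have := Nat.find_spec ex
      rw [h0] at this; simp only [X1, range_zero, sum_empty] at this; omega
    have a1 := Nat.find_spec ex
    have a2 := Nat.find_min ex (hn ▸ n.lt_succ_self)
    have a3 := hω n (by have := ge_self h n; zify; omega)
    rw [hn, X1, sum_range_succ, ← X1] at a1
    obtain ⟨Q, q1, q2⟩ := Set.mem_iUnion₂.1 (hC (a := X1 n ω + ω n) ⟨⟨n + 1, sum_range_succ _ _⟩,
      ⟨by omega, by omega⟩, fun h => by have := h.2; omega⟩)
    exact mem_biUnion.2 ⟨Q, q1, mem_Ico.2 ⟨by have := q2.1; omega, by have := q2.2; omega⟩⟩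
  have c1 : (2 : ℝ) ^ k - 2 ^ b ≤ ∑ Q ∈ C, ((2 : ℝ) ^ Q.1 + 2 ^ b) := by
    have := (card_le_card cov).trans card_biUnion_le
    simp only [Int.card_Ico] at this
    have e : ∀ Q : ℕ × ℤ, ((Q.2 + 1) * 2 ^ Q.1 - (Q.2 * 2 ^ Q.1 - 2 ^ b)).toNat = 2 ^ Q.1 + 2 ^ b :=
      fun Q => by zify; rw [Int.toNat_of_nonneg] <;> ring_nf; positivity
    simp only [e, Int.toNat_le] at this
    have : (2 : ℤ) ^ k - 2 ^ b ≤ ∑ Q ∈ C, ((2 : ℤ) ^ Q.1 + 2 ^ b) := by
      push_cast at this; rw [pow_succ] at this; linarith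
    exact_mod_cast this
  by_cases hQ : ∃ Q ∈ C, k + 2 ≤ Q.1
  · obtain ⟨Q, q1, q2⟩ := hQ
    refine le_trans ?_ (single_le_sum (fun _ _ => by positivity) q1)
    refine le_trans (by norm_num) (Real.one_le_rpow one_le_two (mul_nonneg h0.le ?_))
    have : (k + 2 : ℝ) ≤ Q.1 := by exact_mod_cast q2
    push_cast; linarith
  push Not at hQ
  have c2 : ∑ Q ∈ C, ((2 : ℝ) ^ Q.1 + 2 ^ b) ≤
      ∑ Q ∈ C, 2 ^ (α * (Q.1 - (k + 1 : ℕ) - 1)) * (8 * 2 ^ k) := sum_le_sum fun Q q => by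
    have q1 : (Q.1 : ℝ) ≤ k + 2 := by exact_mod_cast (hQ Q q).le
    have q0 : (0 : ℝ) ≤ Q.1 := Q.1.cast_nonneg
    have e : ∀ t : ℕ, (t : ℝ) ≤ α * (Q.1 - (k + 1 : ℕ) - 1) + (k + 2 : ℕ) → (2 : ℝ) ^ t ≤
        2 ^ (α * (Q.1 - (k + 1 : ℕ) - 1)) * (4 * 2 ^ k) := fun t ht => by
      rw [show (4 : ℝ) * 2 ^ k = 2 ^ (k + 2) by ring, ← Real.rpow_natCast, ← Real.rpow_natCast,
        ← Real.rpow_add two_pos]
      exact Real.rpow_le_rpow_of_exponent_le one_le_two ht
    linarith [e Q.1 (by push_cast; nlinarith), e b (by push_cast; nlinarith)]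
  rw [← sum_mul] at c2
  have c3 : (2 : ℝ) ^ (b + 1) ≤ 2 ^ k := pow_le_pow_right₀ one_le_two hb
  refine le_of_mul_le_mul_right ?_ (show (0 : ℝ) < 8 * 2 ^ k by positivity)
  rw [pow_succ] at c3
  linarith

noncomputable def γ : Measure ℕ := geometricMeasure ⟨1 / 2, by norm_num, by norm_num⟩
instance : IsProbabilityMeasure γ := by unfold γ; infer_instance

lemma tail (a : ℕ) : γ (Set.Ici a) = 2⁻¹ ^ a := by
  have : γ.real (range a) = 1 - 2⁻¹ ^ a := by
    rw [← sum_measureReal_singleton]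
    induction a with
    | zero => simp
    | succ a ih =>
      rw [sum_range_succ, ih, γ, geometricMeasure_real_singleton (by simp [Subtype.ext_iff])]
      norm_num [← one_div]; ring
  rw [← ofReal_measureReal, ← Set.compl_Iio, probReal_compl_eq_one_sub measurableSet_Iio,
    ← coe_range, this, sub_sub_cancel, ENNReal.ofReal_pow (by norm_num),
    ENNReal.ofReal_inv_of_pos two_pos, ENNReal.ofReal_ofNat]

lemma γ_pos (g : ℕ) : γ {g} ≠ 0 := by
  intro h
  have h1 : γ.real {g} = 0 := by rw [measureReal_def, h]; simp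
  rw [γ, geometricMeasure_real_singleton (by simp [Subtype.ext_iff])] at h1
  norm_num at h1

def f (g : ℕ) : ℤ := 2 ^ ({j ∈ range (g + 1) | (3 * j + 2)! ≤ g}.sup fun j => (3 * j + 3)!)
noncomputable def μ1 : Measure ℤ := γ.map f
instance : IsProbabilityMeasure μ1 := Measure.isProbabilityMeasure_map (by fun_prop)

lemma one_le_f (g : ℕ) : 1 ≤ f g := one_le_pow₀ one_le_two

lemma t1 (j : ℕ) : 2⁻¹ ^ (3 * j + 2)! ≤ μ1 (Set.Ici (2 ^ (3 * j + 3)!)) := by
  rw [μ1, Measure.map_apply (by fun_prop) measurableSet_Ici, ← tail]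
  refine measure_mono fun g (hg : _ ≤ g) => show _ ≤ f g from pow_le_pow_right₀ one_le_two
    (le_sup (f := fun j => (3 * j + 3)!) (b := j) (mem_filter.2 ⟨mem_range.2 ?_, hg⟩))
  have := Nat.self_le_factorial (3 * j + 2); omega

lemma t2 (j : ℕ) : μ1 (Set.Ioi (2 ^ (3 * j + 3)!)) ≤ 2⁻¹ ^ (3 * j + 5)! := by
  rw [μ1, Measure.map_apply (by fun_prop) measurableSet_Ioi, ← tail]
  refine measure_mono fun g (hg : _ < f g) => show _ ≤ g from not_lt.1 fun h => not_le.2 hg
    (pow_le_pow_right₀ one_le_two (Finset.sup_le fun i hi => Nat.factorial_le ?_))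
  have := (Nat.factorial_lt (by omega)).1 ((mem_filter.1 hi).2.trans_lt h); omega

lemma pos : ∀ᵐ ω ∂Measure.infinitePi fun _ : ℕ => μ1, ∀ i, 1 ≤ ω i := ae_all_iff.2 fun i =>
  (measurePreserving_eval_infinitePi (fun _ : ℕ => μ1) i).quasiMeasurePreserving.ae
    ((ae_map_iff (by fun_prop) measurableSet_Ici).2 (.of_forall fun _ => one_le_pow₀ one_le_two))

/-- potential on the line -/
noncomputable def U1 (A : Set ℤ) : ℝ≥0∞ :=
  ∑' n, Measure.infinitePi (fun _ : ℕ => μ1) {ω | X1 n ω ∈ A}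

lemma Ule (j : ℕ) {A : Set ℤ} (hA : A ⊆ Set.Iio (2 ^ (3 * j + 3)!)) : U1 A ≤ 2 ^ (3 * j + 2)! := by
  refine (ENNReal.tsum_le_tsum (g := fun n => μ1 (Set.Iio (2 ^ (3 * j + 3)!)) ^ n)
    fun n => ?_).trans ?_
  · refine (measure_mono_ae (t := Set.pi (range n) fun _ => Set.Iio (2 ^ (3 * j + 3)!)) ?_).trans_eq ?_
    · filter_upwards [pos] with ω h hω i hi
      exact (single_le_sum (fun i _ => zero_le_one.trans (h i)) hi).trans_lt (hA hω)
    · rw [Measure.infinitePi_pi _ fun _ _ => measurableSet_Iio, prod_const, card_range]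
  · rw [ENNReal.tsum_geometric, ← prob_compl_eq_one_sub measurableSet_Iio, Set.compl_Iio]
    refine (ENNReal.inv_le_inv.2 (t1 j)).trans_eq ?_
    rw [ENNReal.inv_pow, inv_inv]

lemma big (n : ℕ) : n ≤ (3 * n + 3)! := le_trans (by omega) (Nat.self_le_factorial _)

/-- a.s. for infinitely many `j` (even all large `j`) the walk on the line is dense at scale
`(3j+4)!`, which bounds `N_α` from below -/
lemma ae_big : ∀ᵐ ω ∂Measure.infinitePi (fun _ : ℕ => μ1), (∀ i, 1 ≤ ω i) ∧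
    ∀ α : ℝ, 0 < α → α < 1 → ∃ᶠ k in atTop,
      ENNReal.ofReal (1 / 16) ≤ N1 α (Set.range fun n => X1 n ω) (k + 1) := by
  have bc := ae_eventually_notMem (μ := Measure.infinitePi fun _ : ℕ => μ1) (s := fun j =>
    ⋃ i ∈ range (2 ^ (3 * j + 4)!), {ω | ω i ∈ Set.Ioi (2 ^ (3 * j + 3)!)})
    (ne_top_of_le_ne_top (b := ∑' j : ℕ, 2⁻¹ ^ j) (by simp) (ENNReal.tsum_le_tsum fun j => by
      refine (measure_biUnion_finset_le _ _).trans ((sum_le_card_nsmul _ _ _ fun i _ =>
        ((measurePreserving_eval_infinitePi (fun _ : ℕ => μ1) i).measure_preimage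
          measurableSet_Ioi.nullMeasurableSet).trans_le (t2 j)).trans ?_)
      obtain ⟨c, hc⟩ := Nat.exists_eq_add_of_le (show (3 * j + 4)! + j ≤ (3 * j + 5)! by
        rw [Nat.factorial_succ (3 * j + 4)]; nlinarith [Nat.factorial_pos (3 * j + 4)])
      rw [hc, card_range, nsmul_eq_mul, pow_add, pow_add, ← mul_assoc, ← mul_assoc, Nat.cast_pow,
        ← mul_pow, Nat.cast_two, ENNReal.mul_inv_cancel two_ne_zero ENNReal.ofNat_ne_top, one_pow,
        one_mul]
      exact mul_le_of_le_one_right' (pow_le_one₀ zero_le (by simp))))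
  filter_upwards [pos, bc] with ω h1 h2
  refine ⟨h1, fun α h0 h => ?_⟩
  obtain ⟨m, hm⟩ := exists_nat_one_div_lt (sub_pos.2 h)
  rw [frequently_atTop]
  intro K
  obtain ⟨j, j2, j3⟩ := (h2.and (eventually_ge_atTop (max m K))).exists
  obtain ⟨k, hk⟩ := Nat.exists_eq_add_one_of_ne_zero (Nat.factorial_ne_zero (3 * j + 4))
  have hKk : K ≤ k := by
    have a1 := big j
    have a2 : (3 * j + 3)! < (3 * j + 4)! :=
      (Nat.factorial_lt (show 0 < 3 * j + 3 by omega)).2 (by omega)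
    have a3 : K ≤ j := (le_max_right m K).trans j3
    omega
  rw [hk] at j2
  rw [Nat.factorial_succ] at hk
  have j3' : m ≤ j := (le_max_left m K).trans j3
  refine ⟨k, hKk, lower h0 h h1 (b := (3 * j + 3)!)
    (by nlinarith [Nat.factorial_pos (3 * j + 3)])
    ?_ fun i hi => not_lt.1 fun hh => j2 (Set.mem_biUnion (mem_coe.2 (mem_range.2 hi)) hh)⟩
  have : ((m + 1) * (3 * j + 3)! : ℝ) ≤ k + 2 := by
    norm_cast; nlinarith [Nat.factorial_pos (3 * j + 3)]
  rw [div_lt_iff₀ (by positivity)] at hm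
  nlinarith [(Nat.cast_pos (α := ℝ)).2 (Nat.factorial_pos (3 * j + 3))]

/-! #### The lift to `ℤ^(d+1)` -/

/-- the steps -/
def st (d : ℕ) (g : ℕ) : G (d + 1) := fun i => if i = 0 then f g else if g = (i : ℕ) then 1 else 0

/-- the law of the steps -/
noncomputable def μd (d : ℕ) : Measure (G (d + 1)) := γ.map (st d)

instance (d : ℕ) : IsProbabilityMeasure (μd d) :=
  Measure.isProbabilityMeasure_map (by fun_prop)

lemma map_fst (d : ℕ) : (law (μd d)).map (fun ω i => ω i 0) = Measure.infinitePi fun _ : ℕ => μ1 := by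
  unfold law
  rw [Measure.infinitePi_map_pi (fun _ : ℕ => μd d) (f := fun _ (x : G (d + 1)) => x 0)
    (fun _ => measurable_pi_apply 0)]
  congr 1
  funext _
  rw [μd, Measure.map_map (measurable_pi_apply 0) (by fun_prop), μ1]
  rfl

lemma X_fst {d : ℕ} (n : ℕ) (ω : ℕ → G (d + 1)) : X n ω 0 = X1 n fun i => ω i 0 := by
  simp [X, X1]

lemma ae_cone (d : ℕ) : ∀ᵐ ω ∂law (μd d), ∀ n, ∀ i, 0 ≤ ω n i ∧ ω n i ≤ ω n 0 := by
  refine ae_all_iff.2 fun n => ?_
  refine (measurePreserving_eval_infinitePi (fun _ : ℕ => μd d) n).quasiMeasurePreserving.ae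
    (p := fun x : G (d + 1) => ∀ i, 0 ≤ x i ∧ x i ≤ x 0) ?_
  refine (ae_map_iff (by fun_prop) MeasurableSet.of_discrete).2 (.of_forall fun g i => ?_)
  have h := one_le_f g
  unfold st
  rw [if_pos rfl]
  split_ifs <;> constructor <;> omega

lemma N_proj {d : ℕ} (α : ℝ) (A : Set (G (d + 1))) (hA : ∀ x ∈ A, ∀ i, 0 ≤ x i ∧ x i ≤ x 0)
    (k : ℕ) : N1 α ((fun x => x 0) '' A) (k + 1) ≤ N α A (k + 1) := by
  classical
  refine le_iInf₂ fun C hC => ?_
  refine (iInf₂_le (C.image fun Q => (Q.1, Q.2 0)) ?_).trans ?_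
  · rintro _ ⟨⟨x, hx, rfl⟩, h1, h2⟩
    have h3 : x ∈ A ∩ S (d + 1) (k + 1) := by
      refine ⟨hx, fun i => ?_, fun hc => h2 ?_⟩
      · have a := hA x hx i
        have b := h1.2
        constructor
        · exact le_trans (by simp) a.1
        · exact lt_of_le_of_lt a.2 b
      · exact ⟨(hc 0).1, (hc 0).2⟩
    obtain ⟨Q, q1, q2⟩ := Set.mem_iUnion₂.1 (hC h3)
    refine Set.mem_iUnion₂.2 ⟨(Q.1, Q.2 0), ?_, ?_⟩
    · exact mem_image.2 ⟨Q, q1, rfl⟩
    · exact ⟨(q2 0).1, (q2 0).2⟩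
  · exact sum_image_le_of_nonneg (g := fun Q : ℕ × G (d + 1) => (Q.1, Q.2 0))
      (f := fun Q : ℕ × ℤ => ENNReal.ofReal (2 ^ (α * ((Q.1 : ℝ) - (k + 1 : ℕ) - 1))))
      (fun _ _ => zero_le)

lemma N_upper {d : ℕ} {α : ℝ} (hα : 1 < α) (ω : ℕ → G (d + 1)) (h : ∀ i, 1 ≤ ω i 0) :
    Tendsto (N α (rng ω)) atTop (𝓝 0) := by
  classical
  have : Tendsto (fun k : ℕ => ENNReal.ofReal (((2 : ℝ) ^ (1 - α)) ^ (k + 1))) atTop (𝓝 0) := by
    simpa using ENNReal.tendsto_ofReal ((tendsto_pow_atTop_nhds_zero_of_lt_one (by positivity)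
      (Real.rpow_lt_one_of_one_lt_of_neg one_lt_two (by linarith : 1 - α < 0))).comp
      (tendsto_add_atTop_nat 1))
  refine tendsto_of_tendsto_of_tendsto_of_le_of_le tendsto_const_nhds this (fun _ => zero_le)
    fun k => ?_
  refine (iInf₂_le ((range (2 ^ k)).image fun n => (0, X n ω)) ?_).trans ?_
  · rintro _ ⟨⟨n, rfl⟩, hS⟩
    have hV : X n ω ∈ V (d + 1) k := by
      cases k with
      | zero => exact hS
      | succ k => exact hS.1
    have h1 := (hV 0).2
    have h2 := ge_self (ω := fun i => ω i 0) h n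
    rw [← X_fst] at h2
    refine Set.mem_iUnion₂.2 ⟨(0, X n ω), mem_image.2 ⟨n, mem_range.2 ?_, rfl⟩, fun i => ?_⟩
    · zify; exact lt_of_le_of_lt h2 h1
    · simp
  · have hc : ∀ Q ∈ (range (2 ^ k)).image fun n => ((0 : ℕ), X n ω),
        ENNReal.ofReal ((2:ℝ) ^ (α * ((Q.1 : ℝ) - k - 1))) ≤ ENNReal.ofReal ((2:ℝ) ^ (α * (- k - 1))) := by
      intro Q hQ
      obtain ⟨n, _, rfl⟩ := mem_image.1 hQ
      simp
    refine (Finset.sum_le_card_nsmul _ _ _ hc).trans ?_
    rw [nsmul_eq_mul]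
    have h3 : ((#((range (2 ^ k)).image fun n => ((0 : ℕ), X n ω)) : ℕ) : ℝ≥0∞) ≤
        ENNReal.ofReal ((2:ℝ) ^ ((k:ℝ) + 1)) := by
      have h4 : #((range (2 ^ k)).image fun n => ((0 : ℕ), X n ω)) ≤ 2 ^ k :=
        card_image_le.trans (by rw [card_range])
      rw [← ENNReal.ofReal_natCast]
      apply ENNReal.ofReal_le_ofReal
      have h5 : ((#((range (2 ^ k)).image fun n => ((0 : ℕ), X n ω)) : ℕ) : ℝ) ≤ 2 ^ k := by
        exact_mod_cast h4
      refine h5.trans ?_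
      rw [← Real.rpow_natCast]
      exact Real.rpow_le_rpow_of_exponent_le one_le_two (by linarith)
    refine (mul_le_mul_left h3 _).trans_eq ?_
    rw [← ENNReal.ofReal_mul (by positivity), ← Real.rpow_natCast, ← Real.rpow_mul zero_le_two,
      ← Real.rpow_add two_pos]
    congr 2; push_cast; ring

lemma U_le_U1 (d : ℕ) (A : Set (G (d + 1))) (B : Set ℤ) (h : ∀ x ∈ A, x 0 ∈ B) :
    U (μd d) A ≤ U1 B := by
  refine ENNReal.tsum_le_tsum fun n => ?_
  rw [← map_fst d, Measure.map_apply (by fun_prop)]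
  · refine measure_mono fun ω hω => ?_
    show X1 n (fun i => ω i 0) ∈ B
    rw [← X_fst]
    exact h _ hω
  · have : Measurable (X1 n) := by unfold X1; fun_prop
    exact this MeasurableSet.of_discrete

lemma dimH_eq (d : ℕ) : ∀ᵐ ω ∂law (μd d), dimH (rng ω) = 1 := by
  have h1 : ∀ᵐ ω ∂law (μd d), (∀ i, 1 ≤ ω i 0) ∧ ∀ α : ℝ, 0 < α → α < 1 → ∃ᶠ k in atTop,
      ENNReal.ofReal (1 / 16) ≤ N1 α (Set.range fun n => X1 n fun i => ω i 0) (k + 1) := by
    have h := ae_big
    rw [← map_fst d] at h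
    exact ae_of_ae_map (show Measurable fun (ω : ℕ → G (d + 1)) (i : ℕ) => ω i 0 by
      fun_prop).aemeasurable h
  filter_upwards [h1, ae_cone d] with ω ⟨h1, h2⟩ h3
  have hcone : ∀ x ∈ rng ω, ∀ i, 0 ≤ x i ∧ x i ≤ x 0 := by
    rintro _ ⟨n, rfl⟩ i
    simp only [X, Finset.sum_apply]
    exact ⟨sum_nonneg fun j _ => (h3 j i).1, sum_le_sum fun j _ => (h3 j i).2⟩
  have himg : (fun x : G (d + 1) => x 0) '' rng ω = Set.range fun n => X1 n fun i => ω i 0 := by
    rw [rng, ← Set.range_comp]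
    congr 1
    funext n
    exact X_fst n ω
  refine csInf_eq_of_forall_ge_of_forall_gt_exists_lt ⟨2, two_pos, N_upper one_lt_two ω h1⟩
    (fun α ⟨h0, hα⟩ => not_lt.1 fun h => ?_) fun w hw =>
      ⟨(1 + w) / 2, ⟨by linarith, N_upper (by linarith) ω h1⟩, by linarith⟩
  have hα' := hα.comp (tendsto_add_atTop_nat 1)
  have h5 := hα'.eventually (gt_mem_nhds
    (ENNReal.ofReal_pos.2 (show (0 : ℝ) < 1 / 16 by norm_num)))
  obtain ⟨k, hk1, hk2⟩ := ((h2 α h0 h).and_eventually h5).exists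
  have h6 := N_proj α (rng ω) hcone k
  rw [himg] at h6
  exact absurd (hk1.trans h6) (not_le.2 hk2)

lemma transient_d (d : ℕ) : Transient (μd d) := fun x => by
  refine (U_le_U1 d {x} {x 0} (by rintro _ rfl; rfl)).trans_lt ?_
  refine (Ule (x 0).toNat fun y hy => ?_).trans_lt (by finiteness)
  rw [hy]
  refine (Int.self_le_toNat _).trans_lt ?_
  exact_mod_cast Nat.lt_two_pow_self.trans_le (pow_le_pow_right₀ one_le_two (big _))

lemma lam_eq (d : ℕ) : lam (μd d) = 0 := by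
  have one : ∀ n, 1 ≤ (U (μd d) (V (d + 1) n)).toReal := fun n => by
    have := ENNReal.toReal_mono (U_lt _ (transient_d d) n).ne (one_le_U (μd d) n)
    simpa using this
  refine le_antisymm ?_ (le_liminf_of_le (h := .of_forall fun n => ?_))
  · refine le_of_forall_gt_imp_ge_of_dense fun c hc => ?_
    obtain ⟨e, e1, e2⟩ := EReal.lt_iff_exists_real_btwn.1 hc
    obtain ⟨m, hm⟩ := exists_nat_one_div_lt (EReal.coe_pos.1 e1)
    refine liminf_le_of_frequently_le' (frequently_atTop.2 fun n => ⟨(3 * (n + m) + 3)!,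
      le_trans (by omega) (big _), le_trans (EReal.coe_le_coe_iff.2 (le_trans ?_ hm.le)) e2.le⟩)
    have h1 : U (μd d) (V (d + 1) (3 * (n + m) + 3)!) ≤ 2 ^ (3 * (n + m) + 2)! :=
      (U_le_U1 d _ (Set.Iio (2 ^ (3 * (n + m) + 3)!)) fun x hx => (hx 0).2).trans
        (Ule (n + m) (A := Set.Iio _) subset_rfl)
    have := ENNReal.toReal_mono (by finiteness) h1
    rw [div_le_div_iff₀ (by positivity) (by positivity), one_mul]
    have l : Real.logb 2 (U (μd d) (V (d + 1) (3 * (n + m) + 3)!)).toReal ≤ (3 * (n + m) + 2)! :=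
      (Real.logb_le_iff_le_rpow one_lt_two (by linarith [one (3 * (n + m) + 3)!])).2
        (by simpa using this)
    refine (mul_le_mul_of_nonneg_right l (by positivity)).trans ?_
    rw [Nat.factorial_succ (3 * (n + m) + 2), mul_comm]
    norm_cast
    gcongr; omega
  · exact EReal.coe_nonneg.2 (div_nonneg (Real.logb_nonneg one_lt_two (one n)) n.cast_nonneg)

lemma genuine (d : ℕ) : AddSubgroup.closure {x | μd d {x} ≠ 0} = ⊤ := by
  set H := AddSubgroup.closure {x | μd d {x} ≠ 0} with hH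
  have hst : ∀ g, st d g ∈ H := fun g => by
    refine AddSubgroup.subset_closure ?_
    intro h
    rw [μd, Measure.map_apply (by fun_prop) (measurableSet_singleton _)] at h
    exact γ_pos g (measure_mono_null (by rintro _ rfl; rfl) h)
  have h0 : (Pi.single 0 1 : G (d + 1)) ∈ H := by
    have h1 := hst 0
    have : st d 0 = Pi.single 0 1 := by
      funext i
      unfold st
      by_cases hi : i = 0
      · subst hi
        rw [if_pos rfl, Pi.single_eq_same]
        decide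
      · rw [if_neg hi, Pi.single_eq_of_ne hi, if_neg]
        intro h
        exact hi (Fin.ext h.symm)
    rwa [this] at h1
  have hi : ∀ i, (Pi.single i 1 : G (d + 1)) ∈ H := fun i => by
    by_cases hi : i = 0
    · rw [hi]; exact h0
    have h2 : (Pi.single i 1 : G (d + 1)) = st d i - f i • Pi.single 0 1 := by
      funext j
      simp only [Pi.sub_apply, Pi.smul_apply, smul_eq_mul]
      unfold st
      by_cases hj : j = 0
      · subst hj
        rw [if_pos rfl, Pi.single_eq_same, Pi.single_eq_of_ne (Ne.symm hi)]; ring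
      · rw [if_neg hj, Pi.single_eq_of_ne hj]
        by_cases hij : j = i
        · subst hij; simp
        · rw [Pi.single_eq_of_ne hij, if_neg]
          · ring
          · intro h; exact hij (Fin.ext h.symm)
    rw [h2]
    exact H.sub_mem (hst i) (H.zsmul_mem h0 _)
  rw [eq_top_iff]
  intro x _
  have : x = ∑ i, x i • (Pi.single i 1 : G (d + 1)) := by
    funext j
    simp [Finset.sum_apply, Pi.single_apply]
  rw [this]
  exact H.sum_mem fun i _ => H.zsmul_mem (hi i) _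

/-- **Q1: the second equality always holds, the first one fails in every dimension.**
(1) For every transient random walk on `ℤ^d`, almost surely the macroscopic lower Minkowski
dimension of the range is `λ_X`.
(2) For every `d ≥ 1` there is a transient random walk on `ℤ^d`, whose steps generate the group
`ℤ^d`, with `λ_X = 0` and such that almost surely the macroscopic lower Minkowski dimension of the
range is `0` and its macroscopic lower Hausdorff dimension is `1`. -/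
theorem result :
    (∀ (d : ℕ) (μ : Measure (G d)) [IsProbabilityMeasure μ], Transient μ →
      ∀ᵐ ω ∂law μ, dimM (rng ω) = lam μ) ∧
    ∀ d : ℕ, 1 ≤ d → ∃ (μ : Measure (G d)) (_ : IsProbabilityMeasure μ), Transient μ ∧
      AddSubgroup.closure {x | μ {x} ≠ 0} = ⊤ ∧ lam μ = 0 ∧
      ∀ᵐ ω ∂law μ, dimM (rng ω) = 0 ∧ dimH (rng ω) = 1 := by
  refine ⟨fun d μ _ ht => minkowski μ ht, fun d hd => ?_⟩
  obtain ⟨d, rfl⟩ := Nat.exists_eq_add_of_le' hd
  refine ⟨μd d, inferInstance, transient_d d, genuine d, lam_eq d, ?_⟩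
  filter_upwards [minkowski (μd d) (transient_d d), dimH_eq d] with ω h1 h2
  exact ⟨by rw [h1, lam_eq], h2⟩

end Pool.Agent.Results.MP_fbfbfd_pr.MinkowskiIsLambda
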